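import Pool.Agent.H.MP_dc5a1d_an.A

set_option autoImplicit false

namespace Pool.Agent.H.MP_6afacc_an

open Filter Topology Set Submodule RealInnerProductSpace

lemma cs (a b a' b' : ℝ) : a * a' + b * b' ≤ √(a ^ 2 + b ^ 2) * √(a' ^ 2 + b' ^ 2) := by
  rw [← Real.sqrt_mul (by positivity)]
  exact Real.le_sqrt_of_sq_le (by nlinarith [sq_nonneg (a * b' - b * a')])

lemma mink (a b a' b' : ℝ) :
    √((a + a') ^ 2 + (b + b') ^ 2) ≤ √(a ^ 2 + b ^ 2) + √(a' ^ 2 + b' ^ 2) := by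
  refine Real.sqrt_le_iff.2 ⟨by positivity, ?_⟩
  have h1 := Real.sq_sqrt (show 0 ≤ a ^ 2 + b ^ 2 by positivity)
  have h2 := Real.sq_sqrt (show 0 ≤ a' ^ 2 + b' ^ 2 by positivity)
  nlinarith [cs a b a' b']

variable {H : Type} [NormedAddCommGroup H] [InnerProductSpace ℝ H] {ι : Type}

/-- the cone of the atoms -/
def R (W : ι → H) (ω : ι → ℝ) (K : ℝ) (p : ℝ × H) : Prop :=
  0 ≤ p.1 ∧ ‖p.2‖ ≤ K * p.1 ∧ ∀ i, |⟪W i, p.2⟫| ≤ ω i * p.1

/-- infimal convolution norm -/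
noncomputable def nn (W : ι → H) (ω : ι → ℝ) (K : ℝ) (x : H) : ℝ :=
  ⨅ p : {p // R W ω K p}, √(p.1.1 ^ 2 + ‖x - p.1.2‖ ^ 2)

variable {W : ι → H} {ω : ι → ℝ} {K : ℝ}

lemma R0 : R W ω K (0, 0) := ⟨le_rfl, by simp, by simp⟩

lemma R.add {p q : ℝ × H} (hp : R W ω K p) (hq : R W ω K q) : R W ω K (p + q) :=
  ⟨add_nonneg hp.1 hq.1, (norm_add_le _ _).trans (by
    rw [Prod.fst_add, mul_add]; exact add_le_add hp.2.1 hq.2.1), fun i => by
    rw [Prod.fst_add, Prod.snd_add, mul_add, inner_add_right]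
    exact (abs_add_le _ _).trans (add_le_add (hp.2.2 i) (hq.2.2 i))⟩

lemma R.smul {p : ℝ × H} (hp : R W ω K p) (a : ℝ) : R W ω K (|a| * p.1, a • p.2) :=
  ⟨mul_nonneg (abs_nonneg a) hp.1, by
    rw [norm_smul, Real.norm_eq_abs, mul_left_comm]
    exact mul_le_mul_of_nonneg_left hp.2.1 (abs_nonneg a), fun i => by
    rw [real_inner_smul_right, abs_mul, mul_left_comm]
    exact mul_le_mul_of_nonneg_left (hp.2.2 i) (abs_nonneg a)⟩

lemma nn_le (x : H) {p : ℝ × H} (hp : R W ω K p) : nn W ω K x ≤ √(p.1 ^ 2 + ‖x - p.2‖ ^ 2) :=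
  ciInf_le (f := fun p : {p // R W ω K p} => √(p.1.1 ^ 2 + ‖x - p.1.2‖ ^ 2))
    ⟨0, by rintro _ ⟨p, rfl⟩; positivity⟩ ⟨p, hp⟩

lemma le_nn {x : H} {r : ℝ} (h : ∀ p, R W ω K p → r ≤ √(p.1 ^ 2 + ‖x - p.2‖ ^ 2)) :
    r ≤ nn W ω K x :=
  have : Nonempty {p // R W ω K p} := ⟨⟨_, R0⟩⟩
  le_ciInf fun p => h p.1 p.2

lemma nn_add (x y : H) : nn W ω K (x + y) ≤ nn W ω K x + nn W ω K y := by
  rw [← sub_le_iff_le_add]
  refine le_nn fun p hp => ?_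
  rw [sub_le_comm]
  refine le_nn fun q hq => ?_
  rw [sub_le_iff_le_add']
  refine (nn_le _ (hp.add hq)).trans (le_trans (Real.sqrt_le_sqrt ?_) (mink _ _ _ _))
  rw [Prod.fst_add, Prod.snd_add, add_sub_add_comm]
  gcongr
  exact norm_add_le _ _

lemma nn_smul_le (a : ℝ) (x : H) : nn W ω K (a • x) ≤ ‖a‖ * nn W ω K x := by
  rcases eq_or_ne a 0 with rfl | ha
  · simpa using nn_le (W := W) (ω := ω) (K := K) 0 R0
  rw [← div_le_iff₀' (norm_pos_iff.2 ha)]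
  refine le_nn fun p hp => ?_
  rw [div_le_iff₀' (norm_pos_iff.2 ha)]
  refine (nn_le _ (hp.smul a)).trans_eq ?_
  rw [← smul_sub, norm_smul, Real.norm_eq_abs, mul_pow, mul_pow, ← mul_add,
    Real.sqrt_mul (by positivity), Real.sqrt_sq (abs_nonneg a)]

/-- as a seminorm -/
noncomputable def sn (W : ι → H) (ω : ι → ℝ) (K : ℝ) : Seminorm ℝ H :=
  Seminorm.ofSMulLE (nn W ω K) (le_antisymm (by simpa using nn_le (W := W) (ω := ω) (K := K) 0 R0)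
    (le_nn fun p _ => by positivity)) nn_add nn_smul_le

lemma sn_le (x : H) : sn W ω K x ≤ ‖x‖ :=
  (nn_le (W := W) (ω := ω) (K := K) x R0).trans_eq (by simp)

lemma le_sn (hK : 0 ≤ K) (x : H) : ‖x‖ ≤ (K + 1) * sn W ω K x := by
  rw [← div_le_iff₀' (by linarith)]
  refine le_nn fun p hp => ?_
  rw [div_le_iff₀' (by linarith)]
  have h1 : p.1 ≤ √(p.1 ^ 2 + ‖x - p.2‖ ^ 2) := Real.le_sqrt_of_sq_le (by nlinarith)
  have h2 : ‖x - p.2‖ ≤ √(p.1 ^ 2 + ‖x - p.2‖ ^ 2) := Real.le_sqrt_of_sq_le (by nlinarith)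
  nlinarith [norm_sub_norm_le x p.2, hp.2.1]

lemma inner_le_sn (i : ι) (x : H) : |⟪W i, x⟫| ≤ √(ω i ^ 2 + ‖W i‖ ^ 2) * sn W ω K x := by
  rcases (Real.sqrt_nonneg (ω i ^ 2 + ‖W i‖ ^ 2)).eq_or_lt with h | h
  · have h1 : ‖W i‖ ≤ √(ω i ^ 2 + ‖W i‖ ^ 2) := Real.le_sqrt_of_sq_le (by nlinarith)
    rw [← h, norm_le_zero_iff] at h1
    rw [← h, h1, inner_zero_left, abs_zero, zero_mul]
  rw [← div_le_iff₀' h]
  refine le_nn fun p hp => ?_
  rw [div_le_iff₀' h]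
  refine le_trans ?_ (cs _ _ _ _)
  rw [show ⟪W i, x⟫ = ⟪W i, p.2⟫ + ⟪W i, x - p.2⟫ by rw [inner_sub_right]; ring]
  exact (abs_add_le _ _).trans (add_le_add (hp.2.2 i) (abs_real_inner_le_norm _ _))

lemma sn_par (x y : H) :
    sn W ω K (x + y) ^ 2 + sn W ω K (x - y) ^ 2 ≤ 2 * sn W ω K x ^ 2 + 2 * ‖y‖ ^ 2 := by
  have h : √((sn W ω K (x + y) ^ 2 + sn W ω K (x - y) ^ 2) / 2 - ‖y‖ ^ 2) ≤ sn W ω K x :=
    le_nn fun p hp => Real.sqrt_le_sqrt (by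
      have h1 := pow_le_pow_left₀ (apply_nonneg (sn W ω K) _) (nn_le (x + y) hp) 2
      have h2 := pow_le_pow_left₀ (apply_nonneg (sn W ω K) _) (nn_le (x - y) hp) 2
      rw [Real.sq_sqrt (by positivity)] at h1 h2
      have h3 := parallelogram_law_with_norm ℝ (x - p.2) y
      rw [show x - p.2 + y = x + y - p.2 by abel, show x - p.2 - y = x - y - p.2 by abel] at h3
      nlinarith)
  have := (Real.sqrt_le_iff.1 h).2
  linarith

/-- type synonym carrying the new norm -/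
def Sy (_N : Seminorm ℝ H) : Type := H

instance (N : Seminorm ℝ H) : AddCommGroup (Sy N) := inferInstanceAs (AddCommGroup H)

instance (N : Seminorm ℝ H) : Module ℝ (Sy N) := inferInstanceAs (Module ℝ H)

/-- the statement of the counterexample -/
def Cex : Prop :=
  ∃ (X : Type) (_ : NormedAddCommGroup X) (_ : NormedSpace ℝ X) (_ : CompleteSpace X) (γ : ℝ)
    (D : Set X) (f φ : ℕ → X) (F : ℕ → X →L[ℝ] ℝ) (a : ℕ → ℝ),
    (∀ x y : X, ‖x‖ = 1 → ‖y‖ = 1 → ∀ u : ℝ, (‖x + u • y‖ + ‖x - u • y‖) / 2 - 1 ≤ γ * u ^ 2) ∧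
    (∀ g ∈ D, ‖g‖ = 1) ∧ (∀ g ∈ D, -g ∈ D) ∧ Dense (span ℝ D : Set X) ∧
    (∀ m, ‖F m‖ = 1 ∧ F m (f m) = ‖f m‖) ∧ (∀ m, φ m ∈ D ∧ ∀ g ∈ D, F m g ≤ F m (φ m)) ∧
    (∀ m, ∀ b : ℝ, ‖f m - a m • φ m‖ ≤ ‖f m - b • φ m‖) ∧ (∀ m, f (m + 1) = f m - a m • φ m) ∧
    ∀ m, 1 ≤ ‖f m‖

theorem cex_of [CompleteSpace H] (N : Seminorm ℝ H) {C : ℝ} (N1 : ∀ x, N x ≤ ‖x‖)
    (N2 : ∀ x, ‖x‖ ≤ C * N x)
    (N3 : ∀ x y, N (x + y) ^ 2 + N (x - y) ^ 2 ≤ 2 * N x ^ 2 + 2 * ‖y‖ ^ 2) (F f : ℕ → H)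
    (h1 : ∀ m x, |⟪F m, x⟫| ≤ N (f m) * N x) (h2 : ∀ m, ⟪F m, f m⟫ = N (f m) ^ 2)
    (h3 : ∀ m, 1 ≤ N (f m)) (h4 : ∀ m, ⟪F (m + 1), f m - f (m + 1)⟫ = 0)
    (h5 : ∀ m, 0 < N (f m - f (m + 1)))
    (h6 : ∀ m j, |⟪F m, f j - f (j + 1)⟫| / N (f j - f (j + 1)) ≤
      ⟪F m, f m - f (m + 1)⟫ / N (f m - f (m + 1)))
    {e : H} (e1 : e ≠ 0) (e2 : ∀ m, ⟪F m, e⟫ = 0) {B : Set H} (B1 : Dense (span ℝ B : Set H))
    (B2 : ∀ u ∈ B, ∃ δ : ℝ, 0 < δ ∧ ∀ m, δ * |⟪F m, u⟫| ≤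
      ⟪F m, f m - f (m + 1)⟫ / N (f m - f (m + 1))) : Cex := by
  have N0 : ∀ x, N x = 0 → x = 0 := fun x hx => norm_le_zero_iff.1 (by simpa [hx] using N2 x)
  obtain ⟨X, _, _, T0, nrm0⟩ : ∃ (X : Type) (_ : NormedAddCommGroup X) (_ : NormedSpace ℝ X)
      (T : H ≃ₗ[ℝ] X), ∀ x, ‖T x‖ = N x := by
    let _ : NormedAddCommGroup (Sy N) := AddGroupNorm.toNormedAddCommGroup
      { N.toAddGroupSeminorm with eq_zero_of_map_eq_zero' := N0 }
    let _ : NormedSpace ℝ (Sy N) := ⟨fun a x => (map_smul_eq_mul N a x).le⟩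
    exact ⟨Sy N, inferInstance, inferInstance, LinearEquiv.refl ℝ H, fun x => rfl⟩
  let T : H ≃L[ℝ] X := T0.toContinuousLinearEquivOfBounds 1 C
    (fun x => by rw [nrm0, one_mul]; exact N1 x) fun x => by
      rw [← T0.apply_symm_apply x, nrm0, T0.symm_apply_apply]; exact N2 _
  have nrm : ∀ x, ‖T x‖ = N x := nrm0
  have : CompleteSpace X := (completeSpace_congr (e := T.toEquiv)
    T.isUniformEmbedding).1 inferInstance
  have f0 : ∀ m, 0 < N (f m) := fun m => by linarith [h3 m]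
  let G : ℕ → X →L[ℝ] ℝ := fun m => (N (f m))⁻¹ • (innerSL ℝ (F m)).comp (T.symm : X →L[ℝ] H)
  have hG : ∀ m (x : H), G m (T x) = (N (f m))⁻¹ * ⟪F m, x⟫ := fun m x => by simp [G]
  have G1 : ∀ m, G m (T (f m)) = N (f m) := fun m => by
    rw [hG, h2, sq, inv_mul_cancel_left₀ (f0 m).ne']
  have G2 : ∀ m, ‖G m‖ = 1 := fun m => by
    refine le_antisymm ((G m).opNorm_le_bound zero_le_one fun x => ?_) ?_
    · obtain ⟨x, rfl⟩ := T.surjective x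
      rw [hG, nrm, Real.norm_eq_abs, abs_mul, abs_of_pos (inv_pos.2 (f0 m)),
        inv_mul_le_iff₀ (f0 m), one_mul]
      exact h1 m x
    have := (G m).le_opNorm (T (f m))
    rw [G1, nrm, Real.norm_of_nonneg (f0 m).le] at this
    exact (le_mul_iff_one_le_left (f0 m)).1 this
  let s : ℕ → ℝ := fun m => ⟪F m, f m - f (m + 1)⟫ / N (f m - f (m + 1))
  have s0 : ∀ m, 0 ≤ s m := fun m => (div_nonneg (abs_nonneg _) (h5 0).le).trans (h6 m 0)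
  let D : Set H := {g | N g = 1 ∧ ∀ m, |⟪F m, g⟫| ≤ s m}
  have un : ∀ x : H, N x ≠ 0 → N ((N x)⁻¹ • x) = 1 := fun x hx => by
    rw [map_smul_eq_mul, norm_inv, Real.norm_of_nonneg (apply_nonneg N x), inv_mul_cancel₀ hx]
  refine ⟨X, inferInstance, inferInstance, this, C ^ 2, T '' D, fun m => T (f m),
    fun m => T ((N (f m - f (m + 1)))⁻¹ • (f m - f (m + 1))), G, fun m => N (f m - f (m + 1)),
    fun x y hx hy u => ?_, by rintro _ ⟨g, hg, rfl⟩; rw [nrm, hg.1], ?_, ?_,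
    fun m => ⟨G2 m, by rw [G1, nrm]⟩, fun m => ⟨⟨_, ⟨un _ (h5 m).ne', fun k => ?_⟩, rfl⟩, ?_⟩,
    fun m b => ?_, fun m => ?_, fun m => by rw [nrm]; exact h3 m⟩
  · obtain ⟨x, rfl⟩ := T.surjective x
    obtain ⟨y, rfl⟩ := T.surjective y
    rw [nrm] at hx hy
    have a1 := N3 x (u • y)
    have a2 : ‖u • y‖ ^ 2 ≤ C ^ 2 * u ^ 2 := by
      have := N2 y
      rw [hy, mul_one] at this
      rw [norm_smul, mul_pow, Real.norm_eq_abs, sq_abs, mul_comm]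
      gcongr
    rw [hx] at a1
    rw [← map_smul, ← map_add, ← map_sub, nrm, nrm]
    nlinarith [sq_nonneg (N (x + u • y) - 1), sq_nonneg (N (x - u • y) - 1)]
  · rintro _ ⟨g, hg, rfl⟩
    exact ⟨-g, ⟨(map_neg_eq_map N g).trans hg.1, fun m => by simpa using hg.2 m⟩, map_neg _ _⟩
  · have n0 : N e ≠ 0 := fun h => e1 (N0 e h)
    have a1 : (N e)⁻¹ • e ∈ span ℝ D := subset_span ⟨un e n0, fun m => by
      simpa [real_inner_smul_right, e2] using s0 m⟩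
    have a2 : span ℝ B ≤ span ℝ D := span_le.2 fun u hu => by
      obtain ⟨δ, δ0, hδ⟩ := B2 u hu
      have b0 : 0 < N u + 1 := by positivity
      have b1 : 0 < min δ (N u + 1)⁻¹ := lt_min δ0 (inv_pos.2 b0)
      obtain ⟨y, -, y2⟩ := Pool.Agent.H.MP_dc5a1d_an.equalize
        (x := T (min δ (N u + 1)⁻¹ • u)) (e := T ((N e)⁻¹ • e)) (by rw [nrm, un e n0]) (M := 1) (by
          rw [nrm, map_smul_eq_mul, Real.norm_of_nonneg b1.le]
          refine (mul_le_mul_of_nonneg_right (min_le_right _ _) (apply_nonneg N u)).trans ?_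
          rw [inv_mul_le_iff₀ b0]
          linarith)
      rw [← map_smul, ← map_add, nrm] at y2
      have b2 : min δ (N u + 1)⁻¹ • u + y • (N e)⁻¹ • e ∈ span ℝ D := subset_span ⟨y2, fun m => by
        simp only [inner_add_right, real_inner_smul_right, e2, mul_zero, add_zero, abs_mul,
          abs_of_pos b1]
        exact (mul_le_mul_of_nonneg_right (min_le_left _ _) (abs_nonneg _)).trans (hδ m)⟩
      have b3 := sub_mem b2 (smul_mem _ y a1)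
      rw [add_sub_cancel_right] at b3
      exact (smul_mem_iff _ b1.ne').1 b3
    refine T.surjective.denseRange.dense_of_mapsTo T.continuous (B1.mono a2) fun x hx => ?_
    exact apply_mem_span_image_of_mem_span T0.toLinearMap hx
  · rw [real_inner_smul_right, abs_mul, abs_of_pos (inv_pos.2 (h5 m)), inv_mul_eq_div]
    exact h6 k m
  · rintro _ ⟨g, hg, rfl⟩
    rw [hG, hG, real_inner_smul_right, inv_mul_eq_div (N (f m - f (m + 1)))]
    exact mul_le_mul_of_nonneg_left ((le_abs_self _).trans (hg.2 m)) (inv_pos.2 (f0 m)).le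
  · rw [← map_smul, ← map_smul, ← map_sub, ← map_sub, nrm, nrm, smul_inv_smul₀ (h5 m).ne',
      sub_sub_cancel]
    have a1 := (le_abs_self _).trans
      (h1 (m + 1) (f m - b • (N (f m - f (m + 1)))⁻¹ • (f m - f (m + 1))))
    have a2 := h4 m
    rw [inner_sub_right, real_inner_smul_right, real_inner_smul_right, a2] at a1
    rw [inner_sub_right, h2] at a2
    exact le_of_mul_le_mul_left (by nlinarith) (f0 (m + 1))
  · rw [← map_smul, ← map_sub, smul_inv_smul₀ (h5 m).ne', sub_sub_cancel]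

end Pool.Agent.H.MP_6afacc_an
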