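import Pool.Agent.H.MP_6afacc_an.A

set_option autoImplicit false

namespace Pool.Agent.H.MP_6afacc_an

open Filter Topology Set Submodule RealInnerProductSpace

/-- shifted index -/
def r (m : ℕ) : ℝ := m + 1000

/-- Gram kernel -/
noncomputable def g (i j : ℕ) : ℝ := 4 * r i * r j / (r i + r j) ^ 2

/-- correction coefficient -/
noncomputable def tau (j : ℕ) : ℝ := 100 + (r (j + 1))⁻¹ + 2 * r (j + 1) / (2 * r j + 1) ^ 2

/-- weights -/
noncomputable def hh (i : ℕ) : ℝ := √(1 + 100 * (r i)⁻¹)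

lemma r_ge (m : ℕ) : 1000 ≤ r m := by unfold r; linarith [(Nat.cast_nonneg m : (0 : ℝ) ≤ m)]

lemma r_pos (m : ℕ) : 0 < r m := by linarith [r_ge m]

lemma r_succ (m : ℕ) : r (m + 1) = r m + 1 := by unfold r; push_cast; ring

lemma ri_pos (m : ℕ) : 0 < (r m)⁻¹ := inv_pos.2 (r_pos m)

lemma ri_le (m : ℕ) : (r m)⁻¹ ≤ 1 / 1000 := by
  rw [one_div]; exact inv_anti₀ (by norm_num) (r_ge m)

lemma g_self (i : ℕ) : g i i = 1 := by
  have := r_pos i
  unfold g; field_simp; ring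

lemma g_nonneg (i j : ℕ) : 0 ≤ g i j := by
  have := r_pos i
  have := r_pos j
  unfold g; positivity

lemma g_le (i j : ℕ) : g i j ≤ 1 := by
  have := r_pos i
  have := r_pos j
  unfold g
  rw [div_le_one (by positivity)]
  nlinarith [sq_nonneg (r i - r j)]

lemma g_le' (i j : ℕ) : g i j ≤ 4 * r j * (r i)⁻¹ := by
  have := r_pos i
  have := r_pos j
  unfold g
  rw [← div_eq_mul_inv, div_le_div_iff₀ (by positivity) (by positivity)]
  have : r i * r i ≤ (r i + r j) ^ 2 := by nlinarith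
  nlinarith

lemma g_succ (j : ℕ) : g (j + 1) j = 1 - 1 / (2 * r j + 1) ^ 2 := by
  have := r_pos j
  unfold g
  rw [r_succ]
  field_simp; ring

lemma g_inc (i j : ℕ) : |g i j - g i (j + 1)| ≤ 4 * (r i)⁻¹ := by
  have hi := r_pos i
  have hj := r_pos j
  have e : g i j - g i (j + 1) = 4 * r i * ((r i + r j) * (r j - r i) + r j) /
      ((r i + r j) ^ 2 * (r i + r j + 1) ^ 2) := by
    unfold g
    rw [r_succ, ← add_assoc]
    field_simp; ring
  have a : |(r i + r j) * (r j - r i) + r j| ≤ (r i + r j) * (r i + r j + 1) :=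
    abs_le.2 ⟨by nlinarith, by nlinarith⟩
  rw [e, abs_div, abs_mul, abs_of_pos (by positivity : 0 < 4 * r i), abs_of_pos (by positivity :
    0 < (r i + r j) ^ 2 * (r i + r j + 1) ^ 2), ← div_eq_mul_inv,
    div_le_div_iff₀ (by positivity) hi]
  have b : r i * r i ≤ (r i + r j) * (r i + r j + 1) := by nlinarith
  calc _ = 4 * (r i * r i) * |(r i + r j) * (r j - r i) + r j| := by ring
    _ ≤ 4 * ((r i + r j) * (r i + r j + 1)) * ((r i + r j) * (r i + r j + 1)) := by gcongr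
    _ = _ := by ring

lemma tau_ge (j : ℕ) : 100 ≤ tau j := by
  have := r_pos j
  have := r_pos (j + 1)
  have : 0 ≤ (r (j + 1))⁻¹ + 2 * r (j + 1) / (2 * r j + 1) ^ 2 := by positivity
  unfold tau; linarith

lemma tau_le (j : ℕ) : tau j ≤ 102 := by
  have := r_ge j
  have := ri_le (j + 1)
  have : 2 * r (j + 1) / (2 * r j + 1) ^ 2 ≤ 1 := by
    rw [div_le_one (by positivity), r_succ]; nlinarith
  unfold tau; linarith

lemma hh_sq (i : ℕ) : hh i ^ 2 = 1 + 100 * (r i)⁻¹ :=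
  Real.sq_sqrt (by have := ri_pos i; positivity)

lemma hh_ge (i : ℕ) : 1 ≤ hh i := Real.le_sqrt_of_sq_le (by linarith [ri_pos i])

/-- coefficient of the cone part -/
noncomputable def cy (i j : ℕ) : ℝ :=
  (if i = j then 100 else 0) - (if i + 1 = j then 100 else 0) + if i = j + 1 then tau j else 0

lemma key (j : ℕ) : g (j + 1) j + (r (j + 1))⁻¹ * tau j =
    1 + 100 * (r (j + 1))⁻¹ + ((r (j + 1))⁻¹ ^ 2 + 1 / (2 * r j + 1) ^ 2) := by
  have := r_pos j
  have := r_pos (j + 1)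
  rw [g_succ, tau]
  field_simp; ring

lemma cy_le (i j : ℕ) : |g i j + (r i)⁻¹ * cy i j| ≤ hh i * hh j := by
  have h1 : 1 ≤ hh i * hh j := one_le_mul_of_one_le_of_one_le (hh_ge i) (hh_ge j)
  have h2 := g_nonneg i j
  have h3 := g_le i j
  have h4 := ri_pos i
  have h5 := ri_le i
  unfold cy
  rcases eq_or_ne i j with rfl | a1
  · rw [← sq, hh_sq, g_self, abs_of_nonneg] <;> simp <;> linarith
  rcases eq_or_ne (i + 1) j with rfl | a2
  · rw [if_neg a1, if_pos rfl, if_neg (by omega), abs_le]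
    constructor <;> linarith
  rcases eq_or_ne i (j + 1) with rfl | a3
  · rw [if_neg a1, if_neg a2, if_pos rfl, sub_zero, zero_add, key]
    refine abs_le_of_sq_le_sq ?_ (by linarith)
    rw [mul_pow, hh_sq, hh_sq]
    have b0 := r_ge j
    have b1 : 1 / (2 * r j + 1) ^ 2 ≤ (r (j + 1))⁻¹ ^ 2 := by
      rw [inv_pow, one_div, r_succ]
      exact inv_anti₀ (by positivity) (by nlinarith)
    have b2 : (r (j + 1))⁻¹ + (r (j + 1))⁻¹ ^ 2 ≤ (r j)⁻¹ := by
      rw [r_succ, ← sub_nonneg]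
      have : (r j)⁻¹ - ((r j + 1)⁻¹ + (r j + 1)⁻¹ ^ 2) = 1 / (r j * (r j + 1) ^ 2) := by
        field_simp; ring
      rw [this]; positivity
    have b3 : 0 ≤ 1 / (2 * r j + 1) ^ 2 := by positivity
    generalize 1 / (2 * r j + 1) ^ 2 = d at *
    generalize (r (j + 1))⁻¹ = u at *
    generalize (r j)⁻¹ = w at *
    have b4 : u ^ 2 ≤ 1 / 1000 := by nlinarith
    calc _ ≤ (1 + 100 * u + 2 * u ^ 2) ^ 2 := by gcongr; linarith
      _ ≤ (1 + 100 * u) * (1 + 100 * (u + u ^ 2)) := by nlinarith [sq_nonneg u, mul_pos h4 h4]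
      _ ≤ _ := by gcongr
  rw [if_neg a1, if_neg a2, if_neg a3, abs_le]
  constructor <;> linarith

/-- full coefficient -/
noncomputable def q (i j : ℕ) : ℝ :=
  2 * g i j + (r i)⁻¹ * ((if i = j then (r i)⁻¹ else 0) + cy i j)

lemma q_self (i : ℕ) : q i i = 2 + 100 * (r i)⁻¹ + (r i)⁻¹ ^ 2 := by
  simp [q, cy, g_self]; ring

lemma q_prev (i : ℕ) : q (i + 1) i - q (i + 1) (i + 1) = 0 := by
  have := key i
  have := g_succ i
  rw [q_self, q, cy, if_neg (by omega), if_neg (by omega), if_neg (by omega), if_pos rfl]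
  linarith

lemma q_diag (i : ℕ) : 192 * (r i)⁻¹ ≤ q i i - q i (i + 1) ∧ q i i - q i (i + 1) ≤ 210 * (r i)⁻¹ := by
  have h1 := abs_le.1 (g_inc i i)
  have h4 := ri_pos i
  have h5 := ri_le i
  rw [q_self, q, cy, if_neg (by omega), if_neg (by omega), if_pos rfl, if_neg (by omega)]
  rw [g_self] at h1
  constructor <;> nlinarith

lemma q_off {i j : ℕ} (h : i ≠ j) : |q i j - q i (j + 1)| ≤ 110 * (r i)⁻¹ := by
  have h1 := abs_le.1 (g_inc i j)
  have h4 := ri_pos i
  rcases eq_or_ne i (j + 1) with rfl | a3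
  · rw [q_prev, abs_zero]; positivity
  have h2 := mul_le_mul_of_nonneg_left (tau_ge (j + 1)) h4.le
  have h3 := mul_le_mul_of_nonneg_left (tau_le (j + 1)) h4.le
  have a4 : i + 1 ≠ j + 1 := by omega
  simp only [q, cy, if_neg h, if_neg a3, if_neg a4, abs_le]
  split_ifs with b1 b2 b2
  · omega
  all_goals constructor <;> linarith

end Pool.Agent.H.MP_6afacc_an
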