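import Pool.Agent.H.MP_6afacc_an.B

set_option autoImplicit false

namespace Pool.Agent.H.MP_6afacc_an

open Filter Topology Set Submodule RealInnerProductSpace

variable {H : Type} [NormedAddCommGroup H] [InnerProductSpace ℝ H]

theorem cex_gram [CompleteSpace H] (Φ e : ℕ → H) (he : Orthonormal ℝ e)
    (h0 : ∀ i k, ⟪Φ i, e k⟫ = 0) (hg : ∀ i j, ⟪Φ i, Φ j⟫ = g i j) : Cex := by
  have ee := orthonormal_iff_ite.1 he
  have h0' : ∀ i k, ⟪e k, Φ i⟫ = 0 := fun i k => by rw [real_inner_comm, h0]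
  have n1 : ∀ i, ‖Φ i‖ = 1 := fun i => by
    rw [norm_eq_sqrt_real_inner, hg, g_self, Real.sqrt_one]
  obtain ⟨F, hF⟩ : ∃ F : ℕ → H, ∀ i, F i = Φ i + (r i)⁻¹ • e (i + 1) := ⟨_, fun _ => rfl⟩
  obtain ⟨y, hy⟩ : ∃ y : ℕ → H, ∀ j, y j =
    Φ j + (100 : ℝ) • e (j + 1) - (100 : ℝ) • e j + tau j • e (j + 2) := ⟨_, fun _ => rfl⟩
  obtain ⟨f, hf⟩ : ∃ f : ℕ → H, ∀ j, f j = F j + y j := ⟨_, fun _ => rfl⟩
  have FF : ∀ i j, ⟪F i, F j⟫ = g i j + (r i)⁻¹ * if i = j then (r i)⁻¹ else 0 := fun i j => by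
    simp only [hF, inner_add_left, inner_add_right, real_inner_smul_left, real_inner_smul_right,
      h0, h0', hg, ee, Nat.add_right_cancel_iff]
    split_ifs with h
    · subst h; ring
    ring
  have Fy : ∀ i j, ⟪F i, y j⟫ = g i j + (r i)⁻¹ * cy i j := fun i j => by
    have : (i + 1 = j + 2) = (i = j + 1) := by simp
    simp only [hF, hy, inner_add_left, inner_add_right, inner_sub_right, real_inner_smul_left,
      real_inner_smul_right, h0, h0', hg, ee, Nat.add_right_cancel_iff, cy, this]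
    split_ifs <;> ring
  have Ff : ∀ i j, ⟪F i, f j⟫ = q i j := fun i j => by
    rw [hf, inner_add_right, FF, Fy, q]; ring
  have Fv : ∀ i j, ⟪F i, f j - f (j + 1)⟫ = q i j - q i (j + 1) := fun i j => by
    rw [inner_sub_right, Ff, Ff]
  have nF : ∀ i, hh i ^ 2 + ‖F i‖ ^ 2 = q i i := fun i => by
    rw [← real_inner_self_eq_norm_sq, FF, hh_sq, q_self, g_self, if_pos rfl]; ring
  have ne : ∀ (a : ℝ) k, ‖a • e k‖ = |a| := fun a k => by
    rw [norm_smul, he.1, mul_one, Real.norm_eq_abs]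
  have ny : ∀ j, ‖y j‖ ≤ 303 := fun j => by
    have a1 := norm_add_le (Φ j + (100 : ℝ) • e (j + 1) - (100 : ℝ) • e j) (tau j • e (j + 2))
    have a2 := norm_sub_le (Φ j + (100 : ℝ) • e (j + 1)) ((100 : ℝ) • e j)
    have a3 := norm_add_le (Φ j) ((100 : ℝ) • e (j + 1))
    rw [ne] at a1 a2 a3
    rw [n1] at a3
    rw [abs_of_nonneg (by linarith [tau_ge j])] at a1
    rw [abs_of_nonneg (by norm_num)] at a2 a3
    rw [hy]
    linarith [tau_le j]
  have q0 : ∀ i, 1 ≤ q i i := fun i => by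
    rw [q_self]; nlinarith [ri_pos i]
  have Nf : ∀ i, sn F hh 303 (f i) = √(q i i) := fun i => by
    refine le_antisymm ((nn_le (W := F) (ω := hh) (K := 303) _ (p := (hh i, y i))
      ⟨by linarith [hh_ge i], by linarith [ny i, hh_ge i], fun k => ?_⟩).trans_eq ?_) ?_
    · rw [Fy]; exact cy_le k i
    · rw [hf, add_sub_cancel_right, nF]
    have a1 := inner_le_sn (W := F) (ω := hh) (K := 303) i (f i)
    rw [nF, Ff, abs_of_nonneg (by linarith [q0 i])] at a1
    have a2 : 0 < √(q i i) := Real.sqrt_pos.2 (by linarith [q0 i])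
    refine le_of_mul_le_mul_left ?_ a2
    rwa [Real.mul_self_sqrt (by linarith [q0 i])]
  have nv : ∀ j, 230 ≤ ‖f j - f (j + 1)‖ ∧ ‖f j - f (j + 1)‖ ≤ 260 := fun j => by
    have a1 : ‖(2 : ℝ) • e (j + 1) - e j - e (j + 3)‖ ^ 2 = 6 := by
      rw [← real_inner_self_eq_norm_sq]
      simp only [inner_sub_left, inner_sub_right, real_inner_smul_left, real_inner_smul_right, ee]
      simp
      norm_num
    have a2 : f j - f (j + 1) = (100 : ℝ) • ((2 : ℝ) • e (j + 1) - e j - e (j + 3)) +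
        ((2 : ℝ) • Φ j - (2 : ℝ) • Φ (j + 1) + (r j)⁻¹ • e (j + 1) +
          (tau j - 100 - (r (j + 1))⁻¹) • e (j + 2) - (tau (j + 1) - 100) • e (j + 3)) := by
      simp only [hf, hF, hy]
      module
    have a3 : ‖(2 : ℝ) • Φ j - (2 : ℝ) • Φ (j + 1) + (r j)⁻¹ • e (j + 1) +
          (tau j - 100 - (r (j + 1))⁻¹) • e (j + 2) - (tau (j + 1) - 100) • e (j + 3)‖ ≤ 10 := by
      have b1 : ∀ i, ‖(2 : ℝ) • Φ i‖ = 2 := fun i => by rw [norm_smul, n1]; simp
      have b2 : |(r j)⁻¹| ≤ 1 := abs_le.2 ⟨by linarith [ri_pos j], by linarith [ri_le j]⟩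
      have b3 : |tau j - 100 - (r (j + 1))⁻¹| ≤ 2 := abs_le.2
        ⟨by linarith [ri_le (j + 1), tau_ge j], by linarith [ri_pos (j + 1), tau_le j]⟩
      have b4 : |tau (j + 1) - 100| ≤ 2 := abs_le.2
        ⟨by linarith [tau_ge (j + 1)], by linarith [tau_le (j + 1)]⟩
      refine (norm_sub_le_of_le (norm_add_le_of_le (norm_add_le_of_le (norm_sub_le_of_le
        (b1 _).le (b1 _).le) ((ne _ _).trans_le b2)) ((ne _ _).trans_le b3))
        ((ne _ _).trans_le b4)).trans (by norm_num)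
    generalize (2 : ℝ) • e (j + 1) - e j - e (j + 3) = w at a1 a2
    generalize (2 : ℝ) • Φ j - (2 : ℝ) • Φ (j + 1) + (r j)⁻¹ • e (j + 1) +
      (tau j - 100 - (r (j + 1))⁻¹) • e (j + 2) - (tau (j + 1) - 100) • e (j + 3) = z at a2 a3
    have a4 : ‖(100 : ℝ) • w‖ = 100 * ‖w‖ := by rw [norm_smul]; simp
    have a5 := norm_add_le ((100 : ℝ) • w) z
    have a6 := norm_sub_le ((100 : ℝ) • w + z) z
    rw [add_sub_cancel_right] at a6
    have a7 : 12 / 5 ≤ ‖w‖ := abs_le_of_sq_le_sq' (by linarith) (norm_nonneg w) |>.2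
    have a8 : ‖w‖ ≤ 5 / 2 := abs_le_of_sq_le_sq' (by linarith) (by norm_num) |>.2
    rw [a2]
    constructor <;> linarith
  have v1 : ∀ j, 230 / 304 ≤ sn F hh 303 (f j - f (j + 1)) := fun j => by
    have := le_sn (W := F) (ω := hh) (K := 303) (by norm_num) (f j - f (j + 1))
    linarith [(nv j).1]
  have v0 : ∀ i j, |⟪F i, f j - f (j + 1)⟫| ≤ 210 * (r i)⁻¹ := fun i j => by
    rw [Fv]
    rcases eq_or_ne i j with rfl | h
    · exact abs_le.2 ⟨by linarith [(q_diag i).1, ri_pos i], (q_diag i).2⟩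
    linarith [q_off h, ri_pos i]
  have v2 : ∀ j, sn F hh 303 (f j - f (j + 1)) ≤ 260 / 303 := fun j => by
    refine (nn_le (W := F) (ω := hh) (K := 303) _ (p := (260 / 303, f j - f (j + 1)))
      ⟨by norm_num, by linarith [(nv j).2], fun k => ?_⟩).trans_eq ?_
    · linarith [v0 k j, ri_le k, hh_ge k]
    rw [sub_self, norm_zero, sq (0 : ℝ), mul_zero, add_zero, Real.sqrt_sq (by norm_num)]
  have v3 : ∀ m, 200 * (r m)⁻¹ ≤ ⟪F m, f m - f (m + 1)⟫ / sn F hh 303 (f m - f (m + 1)) :=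
    fun m => by
      rw [le_div_iff₀ (by linarith [v1 m]), Fv]
      nlinarith [(q_diag m).1, ri_pos m, v2 m]
  refine cex_of (sn F hh 303) sn_le (le_sn (by norm_num)) sn_par F f (fun m x => ?_)
    (fun m => by rw [Nf, Ff, Real.sq_sqrt (by linarith [q0 m])])
    (fun m => by rw [Nf]; exact Real.one_le_sqrt.2 (q0 m)) (fun m => by rw [Fv, q_prev])
    (fun m => by linarith [v1 m]) (fun m j => ?_) (e := e 0) (he.ne_zero 0)
    (fun m => by simp [hF, inner_add_left, real_inner_smul_left, h0, ee])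
    (B := {u | ∃ C : ℝ, ∀ i, |⟪F i, u⟫| ≤ C * (r i)⁻¹}) ?_ ?_
  · rw [Nf, ← nF]; exact inner_le_sn m x
  · rcases eq_or_ne m j with rfl | h
    · rw [abs_of_nonneg]
      rw [Fv]
      linarith [(q_diag m).1, ri_pos m]
    refine le_trans ?_ (v3 m)
    rw [div_le_iff₀ (by linarith [v1 j]), Fv]
    nlinarith [q_off h, ri_pos m, v1 j]
  · rw [dense_iff_topologicalClosure_eq_top, topologicalClosure_eq_top_iff, eq_bot_iff]
    intro u hu
    rw [mem_orthogonal] at hu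
    refine inner_self_eq_zero.1 (hu u (subset_span ⟨0, fun i => ?_⟩))
    rw [hu (F i) (subset_span ⟨4 * r i + 1, fun k => ?_⟩), abs_zero, zero_mul]
    have a1 := g_le' k i
    have a2 := g_nonneg k i
    have a3 := ri_pos k
    have a4 := ri_le k
    rw [FF, abs_le]
    split_ifs <;> constructor <;> nlinarith [r_pos i]
  · rintro u ⟨C, hC⟩
    refine ⟨200 / (|C| + 1), by positivity, fun m => le_trans ?_ (v3 m)⟩
    rw [div_mul_eq_mul_div, div_le_iff₀ (by positivity)]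
    nlinarith [hC m, le_abs_self C, ri_pos m]

end Pool.Agent.H.MP_6afacc_an
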