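import Pool.Agent.H.MP_6afacc_an.C

set_option autoImplicit false

namespace Pool.Agent.H.MP_6afacc_an

open Filter Topology Set Submodule RealInnerProductSpace

/-- coordinates -/
noncomputable def ph (i k : ℕ) : ℝ :=
  4 * r i / (r i + 1) ^ 2 * √(k + 1) * ((r i - 1) / (r i + 1)) ^ k

lemma ph_sum (i j : ℕ) : HasSum (fun k => ph i k * ph j k) (g i j) := by
  have hi := r_ge i
  have hj := r_ge j
  have a0 : ∀ i, ‖(r i - 1) / (r i + 1)‖ < 1 := fun i => by
    have := r_ge i
    rw [Real.norm_of_nonneg (div_nonneg (by linarith) (by linarith)), div_lt_one (by linarith)]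
    linarith
  have a1 : ‖(r i - 1) / (r i + 1) * ((r j - 1) / (r j + 1))‖ < 1 := by
    rw [norm_mul]
    exact mul_lt_one_of_nonneg_of_lt_one_left (norm_nonneg _) (a0 i) (a0 j).le
  have a2 := (hasSum_choose_mul_geometric_of_norm_lt_one 1 a1).mul_left
    (4 * r i / (r i + 1) ^ 2 * (4 * r j / (r j + 1) ^ 2))
  have e1 : (fun k => ph i k * ph j k) = fun k : ℕ =>
      4 * r i / (r i + 1) ^ 2 * (4 * r j / (r j + 1) ^ 2) * ((((k + 1).choose 1 : ℕ) : ℝ) *
        ((r i - 1) / (r i + 1) * ((r j - 1) / (r j + 1))) ^ k) := by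
    funext k
    have := Real.mul_self_sqrt (show (0 : ℝ) ≤ k + 1 by positivity)
    rw [Nat.choose_one_right, mul_pow, Nat.cast_succ, ph, ph]
    linear_combination (4 * r i / (r i + 1) ^ 2 * (4 * r j / (r j + 1) ^ 2) *
      ((r i - 1) / (r i + 1)) ^ k * ((r j - 1) / (r j + 1)) ^ k) * this
  have e2 : g i j = 4 * r i / (r i + 1) ^ 2 * (4 * r j / (r j + 1) ^ 2) *
      (1 / (1 - (r i - 1) / (r i + 1) * ((r j - 1) / (r j + 1))) ^ (1 + 1)) := by
    have b1 : r i + 1 ≠ 0 := by linarith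
    have b2 : r j + 1 ≠ 0 := by linarith
    have b3 : r i + r j ≠ 0 := by linarith
    have : 1 - (r i - 1) / (r i + 1) * ((r j - 1) / (r j + 1)) =
        2 * (r i + r j) / ((r i + 1) * (r j + 1)) := by field_simp; ring
    rw [this, g, div_pow, one_div_div]
    field_simp; ring
  rw [e1, e2]
  exact a2

theorem cex : Cex := by
  have hm : ∀ i, Memℓp (ph i) 2 := fun i => memℓp_gen (by
    simpa [sq] using (ph_sum i i).summable)
  refine cex_gram (H := WithLp 2 (lp (fun _ : ℕ => ℝ) 2 × lp (fun _ : ℕ => ℝ) 2))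
    (fun i => WithLp.toLp 2 (⟨ph i, hm i⟩, 0)) (fun k => WithLp.toLp 2 (0, lp.single 2 k 1))
    (orthonormal_iff_ite.2 fun i j => ?_) (fun i k => by simp) fun i j => ?_
  · simp [lp.inner_single_left, Pi.single_apply]
  simp only [WithLp.prod_inner_apply, inner_zero_left, add_zero]
  refine (lp.hasSum_inner _ _).unique ?_
  simpa [mul_comm] using ph_sum i j

end Pool.Agent.H.MP_6afacc_an
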